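import Pool.Agent.H484.AL.Stm

/-!
# Homothety of good sets
-/

namespace Pool.Agent.H484.AL

theorem t_HOM : S_HOM := by
  intro d R N h a s hh hG
  obtain ⟨K, ⟨hK, hsep⟩, hs⟩ := hG
  refine ⟨K, ⟨fun k hk => ⟨?_, fun i => ⟨(hK k hk).2 i |>.1, ?_⟩⟩, hsep⟩, ?_⟩
  · obtain ⟨q, hq⟩ := (hK k hk).1
    refine ⟨q, ?_⟩
    have h1 : ∑ i, (((h * a i : ℕ) : ℤ)) * k i = (h : ℤ) * ∑ i, (a i : ℤ) * k i := by
      rw [Finset.mul_sum]
      refine Finset.sum_congr rfl fun i _ => ?_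
      push_cast
      ring
    rw [h1, hq]
    push_cast
    ring
  · have h1 := ((hK k hk).2 i).2
    have h2 : (N : ℤ) ≤ ((h * N : ℕ) : ℤ) := by
      exact_mod_cast Nat.le_mul_of_pos_left N (by omega)
    omega
  · have h1 : wt d (h * N) K = (h : ℝ) * wt d N K := by
      unfold wt
      rw [Finset.mul_sum]
      refine Finset.sum_congr rfl fun k _ => ?_
      push_cast
      ring
    rw [h1]
    exact mul_le_mul_of_nonneg_left hs (by positivity)

end Pool.Agent.H484.AL
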