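import Pool.Agent.H484.AL.Stm

/-!
# First moment at level `t`
-/

namespace Pool.Agent.H484.AL

open Finset
open scoped Classical

theorem MOM1_M_pos {e B g M a0 J : ℕ} {α : Fin e → ℕ} (hR : Reg e B g M a0 α J) : 0 < M := by
  rcases Nat.eq_zero_or_pos M with h | h
  · have h1 := hR.hN
    rw [h, mul_zero] at h1
    have h2 : 0 < B ^ (40 * e * J) := Nat.pow_pos (by have := hR.hB; omega)
    omega
  · exact h

/-- Exchange of the summations. -/
theorem MOM1_exchange (e g M a0 B J t : ℕ) (α : Fin e → ℕ) :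
    ∑ b : Fin e → Fin M, Mt e g M a0 B J α (fun i => (b i : ℕ)) t =
      ∑ j ∈ jset e J, ∑ l ∈ Lset e g B α j,
        ((univ.filter (fun b : Fin e → Fin M =>
          EvC e g M a0 B α (fun i => (b i : ℕ)) t j l)).card : ℝ) := by
  unfold Mt
  rw [Finset.sum_comm]
  refine Finset.sum_congr rfl fun j _ => ?_
  simp only [NN, Finset.card_filter, Nat.cast_sum]
  rw [Finset.sum_comm]

theorem MOM1_AA {e g M B J t : ℕ} {α : Fin e → ℕ} (hM : 0 < M) (he : 1 ≤ e) (c : ℝ) :
    c * AA e g M B J α t * (M : ℝ) ^ e =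
      ∑ j ∈ jset e J, ∑ _l ∈ Lset e g B α j,
        c * (kap e (g * M) B t j : ℝ) * (M : ℝ) ^ (e - 1) := by
  have hM0 : (M : ℝ) ≠ 0 := by exact_mod_cast hM.ne'
  unfold AA
  rw [Finset.mul_sum, Finset.sum_mul]
  refine Finset.sum_congr rfl fun j _ => ?_
  rw [Finset.sum_const, nsmul_eq_mul]
  obtain ⟨n, rfl⟩ : ∃ n, e = n + 1 := ⟨e - 1, by omega⟩
  rw [Nat.add_sub_cancel, pow_succ]
  field_simp

theorem t_MOM1 (hONE : S_ONE) : S_MOM1 := by
  intro e B g M a0 J α hR t ht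
  have hM := MOM1_M_pos hR
  have he : 1 ≤ e := by have := hR.he; omega
  rw [MOM1_exchange, MOM1_AA hM he, MOM1_AA hM he]
  exact ⟨Finset.sum_le_sum fun j hj => Finset.sum_le_sum fun l hl =>
    (hONE e B g M a0 J α hR t j ht hj l hl).1,
    Finset.sum_le_sum fun j hj => Finset.sum_le_sum fun l hl =>
    (hONE e B g M a0 J α hR t j ht hj l hl).2⟩

end Pool.Agent.H484.AL
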